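import Mathlib
import Pool.Agent.Q151.Astral.Main
import Pool.Agent.Q151.Astral.Trig

/-!
# MP_abecca_co: infinitely many connected sporadic 3-astral 4-configurations

For `q = 4^(n+1)` and `m = 30 q` the symbol `m#(1, 4q; q, 1; 7q, 6q)` is the symbol of a connected
sporadic 3-astral 4-configuration.
-/

namespace Pool.Agent.Results.MP_abecca_co.Sporadic

open Pool.Agent.Q151.Astral Real

section

variable (n : ℕ)

def q : ℕ := 4 ^ (n + 1)
def mm : ℕ := 30 * q n
def ss : Fin 3 → ℕ := ![1, q n, 7 * q n]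
def tt : Fin 3 → ℕ := ![4 * q n, 1, 6 * q n]

theorem q_ge : 4 ≤ q n := by
  unfold q
  calc 4 = 4 ^ 1 := by norm_num
    _ ≤ 4 ^ (n + 1) := Nat.pow_le_pow_right (by norm_num) (by omega)

theorem q_pos : 0 < q n := by have := q_ge n; omega

theorem mm_pos : 0 < mm n := by unfold mm; have := q_pos n; omega

theorem q_even : 2 ∣ q n := by
  unfold q
  exact dvd_pow (by norm_num) (by omega)

theorem coprime_of (k : ℕ) (h15 : k.Coprime 15) (h2 : k.Coprime 2) : k.Coprime (2 * mm n) := by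
  have : 2 * mm n = 15 * 2 ^ (2 * (n + 2)) := by
    unfold mm q
    rw [pow_mul]
    norm_num
    ring
  rw [this]
  exact Nat.Coprime.mul_right h15 (Nat.Coprime.pow_right _ h2)

theorem cop7 : (7 : ℕ).Coprime (2 * mm n) := coprime_of n 7 (by norm_num) (by norm_num)

theorem cop15 : (15 * q n + 1).Coprime (2 * mm n) := by
  apply coprime_of
  · have h : Nat.gcd (15 * q n + 1) 15 = Nat.gcd 1 15 := by
      rw [Nat.gcd_comm, Nat.gcd_comm 1 15]
      rw [add_comm]
      exact Nat.gcd_add_mul_left_right 15 1 (q n)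
    unfold Nat.Coprime
    rw [h]
    norm_num
  · rw [Nat.coprime_two_right]
    have := q_even n
    exact ⟨15 * (q n / 2), by omega⟩

/-- the angle `π / m` -/
noncomputable def phi : ℝ := π / mm n

theorem phi_pos : 0 < phi n := by
  unfold phi
  have := mm_pos n
  have : (0 : ℝ) < mm n := by exact_mod_cast this
  positivity

theorem q_phi : (q n : ℝ) * phi n = π / 30 := by
  unfold phi mm
  have : (q n : ℝ) ≠ 0 := by
    have := q_pos n
    exact_mod_cast this.ne'
  push_cast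
  field_simp

theorem phi_le : 4 * phi n ≤ π / 30 := by
  rw [← q_phi n]
  have h : (4 : ℝ) ≤ q n := by exact_mod_cast q_ge n
  have := phi_pos n
  nlinarith

theorem ang (a : ℝ) : a * π / mm n = a * phi n := by
  unfold phi; ring

noncomputable def RR : Fin 3 → ℝ :=
  ![1, cos (phi n) / cos (4 * (π / 30)), cos (π / 30) / cos (4 * (π / 30))]

noncomputable def dd : Fin 3 → ℝ :=
  ![cos (phi n), cos (phi n) * cos (π / 30) / cos (4 * (π / 30)), cos (6 * (π / 30))]

theorem c24_pos : 0 < cos (4 * (π / 30)) := cos_pos' (by positivity) (by linarith [pi_pos])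

theorem c36_pos : 0 < cos (6 * (π / 30)) := cos_pos' (by positivity) (by linarith [pi_pos])

theorem c6_pos : 0 < cos (π / 30) := cos_pos' (by positivity) (by linarith [pi_pos])

theorem cphi_gt : cos (π / 30) < cos (phi n) :=
  cos_lt (phi_pos n).le (by have := phi_le n; have := phi_pos n; linarith) (by linarith [pi_pos])

theorem c36_lt : cos (6 * (π / 30)) < cos (4 * (π / 30)) :=
  cos_lt (by positivity) (by linarith [pi_pos]) (by linarith [pi_pos])

theorem c24_lt : cos (4 * (π / 30)) < cos (π / 30) :=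
  cos_lt (by positivity) (by linarith [pi_pos]) (by linarith [pi_pos])

theorem RR_pos : ∀ j, 0 < RR n j := by
  have h1 := c24_pos
  have h2 := c6_pos
  have h3 := cphi_gt n
  intro j
  fin_cases j
  · simp [RR]
  · simp only [RR]
    exact div_pos (by linarith) h1
  · simp only [RR]
    exact div_pos h2 h1

theorem dd_pos : ∀ j, 0 < dd n j := by
  have h1 := c24_pos
  have h2 := c6_pos
  have h3 := cphi_gt n
  intro j
  fin_cases j
  · simp only [dd]
    show 0 < cos (phi n)
    linarith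
  · simp only [dd]
    exact div_pos (mul_pos (by linarith) h2) h1
  · simp only [dd]
    exact c36_pos

theorem inj3 {f : Fin 3 → ℝ} (h1 : f 0 ≠ f 1) (h2 : f 0 ≠ f 2) (h3 : f 1 ≠ f 2) :
    Function.Injective f := by
  intro i j h
  fin_cases i <;> fin_cases j <;> first | rfl | (exfalso; first | exact h1 h | exact h2 h | exact h3 h | exact h1 h.symm | exact h2 h.symm | exact h3 h.symm)

theorem RR_inj : Function.Injective (RR n) := by
  have h1 := c24_pos
  have h2 := c6_pos
  have h3 := cphi_gt n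
  have h4 := c24_lt
  apply inj3
  · show (1 : ℝ) ≠ cos (phi n) / cos (4 * (π / 30))
    rw [ne_eq, eq_div_iff h1.ne']
    intro h
    linarith
  · show (1 : ℝ) ≠ cos (π / 30) / cos (4 * (π / 30))
    rw [ne_eq, eq_div_iff h1.ne']
    intro h
    linarith
  · show cos (phi n) / cos (4 * (π / 30)) ≠ cos (π / 30) / cos (4 * (π / 30))
    rw [ne_eq, div_left_inj' h1.ne']
    intro h
    linarith

theorem dd_inj : Function.Injective (dd n) := by
  have h1 := c24_pos
  have h2 := c6_pos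
  have h3 := cphi_gt n
  have h4 := c24_lt
  have h5 := c36_lt
  have h6 := c36_pos
  apply inj3
  · show cos (phi n) ≠ cos (phi n) * cos (π / 30) / cos (4 * (π / 30))
    rw [ne_eq, eq_div_iff h1.ne']
    intro h
    have := mul_left_cancel₀ (by linarith : cos (phi n) ≠ 0) h
    linarith
  · show cos (phi n) ≠ cos (6 * (π / 30))
    intro h
    linarith
  · show cos (phi n) * cos (π / 30) / cos (4 * (π / 30)) ≠ cos (6 * (π / 30))
    rw [ne_eq, div_eq_iff h1.ne']
    intro h
    have : cos (6 * (π / 30)) * cos (4 * (π / 30)) < cos (phi n) * cos (π / 30) := by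
      apply mul_lt_mul'' <;> linarith
    linarith

theorem cos_natAbs (m : ℕ) (x : ℤ) :
    cos ((x : ℝ) * π / m) = cos ((x.natAbs : ℝ) * π / m) := by
  rw [Nat.cast_natAbs, Int.cast_abs]
  rcases abs_cases (x : ℝ) with ⟨h, -⟩ | ⟨h, -⟩
  · rw [h]
  · rw [h, show -(x : ℝ) * π / m = -((x : ℝ) * π / m) by ring, cos_neg]

/-- the extra incidence `P_3`, `L_1` does not occur -/
theorem extra1 (x : ℤ) : RR n 2 * cos ((x : ℝ) * π / mm n) ≠ dd n 0 := by
  intro h
  have h1 := c24_pos
  have hx := cos_natAbs (mm n) x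
  rw [hx] at h
  have h' : cos (π / 30) / cos (4 * (π / 30)) * cos ((x.natAbs : ℝ) * π / mm n) = cos (phi n) := h
  have h2 : cos ((x.natAbs : ℝ) * π / mm n) * cos ((q n : ℝ) * π / mm n) =
      cos (((1 : ℕ) : ℝ) * π / mm n) * cos (((4 * q n : ℕ) : ℝ) * π / mm n) := by
    rw [ang n (q n : ℝ), ang n ((1 : ℕ) : ℝ), ang n ((4 * q n : ℕ) : ℝ)]
    push_cast
    rw [mul_assoc 4, q_phi, one_mul, ← h', div_mul_eq_mul_div, div_mul_cancel₀ _ h1.ne', mul_comm]
  have h3 := cosrel (mm_pos n) h2 (cop7 n)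
  rw [ang n ((7 * q n : ℕ) : ℝ), ang n ((7 * 1 : ℕ) : ℝ), ang n ((7 * (4 * q n) : ℕ) : ℝ)] at h3
  push_cast at h3
  rw [mul_assoc 7 (q n : ℝ) (phi n), q_phi,
    show (7 : ℝ) * (4 * (q n : ℝ)) * phi n = 28 * ((q n : ℝ) * phi n) by ring, q_phi] at h3
  have h4 : cos (28 * (π / 30)) = -cos (2 * (π / 30)) := by
    rw [← cos_pi_sub]; congr 1; ring
  rw [h4] at h3
  set X := cos (7 * (x.natAbs : ℝ) * π / mm n) with hX
  have hX1 : -1 ≤ X := neg_one_le_cos _
  have h5 : cos (2 * (π / 30)) ≤ cos (7 * phi n) := by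
    apply cos_le_cos_of_nonneg_of_le_pi
    · have := phi_pos n; linarith
    · linarith [pi_pos]
    · have := phi_le n
      have := phi_pos n
      linarith
  have h6 : 0 < cos (7 * (π / 30)) := cos_pos' (by positivity) (by linarith [pi_pos])
  have h7 : 0 < cos (2 * (π / 30)) := cos_pos' (by positivity) (by linarith [pi_pos])
  have h8 := ineq2
  nlinarith [mul_le_mul_of_nonneg_right h5 h7.le, mul_le_mul_of_nonneg_right hX1 h6.le]

/-- the extra incidence `P_1`, `L_2` does not occur -/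
theorem extra2 (x : ℤ) : RR n 0 * cos ((x : ℝ) * π / mm n) ≠ dd n 1 := by
  intro h
  have h' : (1 : ℝ) * cos ((x : ℝ) * π / mm n) = cos (phi n) * cos (π / 30) / cos (4 * (π / 30)) := h
  have h1 := c24_pos
  rw [one_mul, eq_div_iff h1.ne'] at h'
  have h2 := cos_le_one ((x : ℝ) * π / mm n)
  have h3 := ineq1
  have h4 := cphi_gt n
  have h5 := c6_pos
  nlinarith

/-- the extra incidence `P_2`, `L_3` does not occur -/
theorem extra3 (x : ℤ) : RR n 1 * cos ((x : ℝ) * π / mm n) ≠ dd n 2 := by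
  intro h
  have h1 := c24_pos
  have hx := cos_natAbs (mm n) x
  rw [hx] at h
  have h' : cos (phi n) / cos (4 * (π / 30)) * cos ((x.natAbs : ℝ) * π / mm n) =
    cos (6 * (π / 30)) := h
  have h2 : cos ((x.natAbs : ℝ) * π / mm n) * cos (((1 : ℕ) : ℝ) * π / mm n) =
      cos (((6 * q n : ℕ) : ℝ) * π / mm n) * cos (((4 * q n : ℕ) : ℝ) * π / mm n) := by
    rw [ang n ((1 : ℕ) : ℝ), ang n ((4 * q n : ℕ) : ℝ), ang n ((6 * q n : ℕ) : ℝ)]
    push_cast
    rw [mul_assoc 4, mul_assoc 6, q_phi, one_mul, ← h', div_mul_eq_mul_div,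
      div_mul_cancel₀ _ h1.ne', mul_comm]
  have h3 := cosrel (mm_pos n) h2 (cop15 n)
  rw [ang n (((15 * q n + 1) * 1 : ℕ) : ℝ), ang n (((15 * q n + 1) * (6 * q n) : ℕ) : ℝ),
    ang n (((15 * q n + 1) * (4 * q n) : ℕ) : ℝ)] at h3
  obtain ⟨c, hc⟩ := q_even n
  have hcr : (q n : ℝ) = 2 * c := by exact_mod_cast hc
  have e1 : (((15 * q n + 1) * 1 : ℕ) : ℝ) * phi n = phi n + π / 2 := by
    push_cast
    rw [mul_one, add_mul, mul_assoc, q_phi]
    ring
  have e2 : (((15 * q n + 1) * (6 * q n) : ℕ) : ℝ) * phi n = 6 * (π / 30) + (3 * c : ℕ) * (2 * π) := by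
    push_cast
    rw [show (15 * (q n : ℝ) + 1) * (6 * (q n : ℝ)) * phi n =
      (15 * (q n : ℝ) + 1) * 6 * ((q n : ℝ) * phi n) by ring, q_phi, hcr]
    ring
  have e3 : (((15 * q n + 1) * (4 * q n) : ℕ) : ℝ) * phi n = 4 * (π / 30) + (2 * c : ℕ) * (2 * π) := by
    push_cast
    rw [show (15 * (q n : ℝ) + 1) * (4 * (q n : ℝ)) * phi n =
      (15 * (q n : ℝ) + 1) * 4 * ((q n : ℝ) * phi n) by ring, q_phi, hcr]
    ring
  rw [e1, e2, e3, cos_add_pi_div_two, cos_add_nat_mul_two_pi, cos_add_nat_mul_two_pi] at h3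
  set X := cos (((15 * q n + 1) * x.natAbs : ℕ) * π / mm n) with hX
  have hX1 : -1 ≤ X := neg_one_le_cos _
  have h5 : sin (phi n) < phi n := sin_lt (phi_pos n)
  have h6 : 0 < sin (phi n) := sin_pos_of_pos_of_lt_pi (phi_pos n) (by
    have := phi_le n
    have := pi_pos
    linarith)
  have h7 : phi n < 1 / 4 := by
    have := phi_le n
    have := pi_lt_four
    linarith
  have h8 : 1 / 2 < cos (6 * (π / 30)) := by
    rw [← cos_pi_div_three]
    exact cos_lt (by positivity) (by linarith [pi_pos]) (by linarith [pi_pos])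
  have h9 : 1 / 2 < cos (4 * (π / 30)) := by
    rw [← cos_pi_div_three]
    exact cos_lt (by positivity) (by linarith [pi_pos]) (by linarith [pi_pos])
  have h10 : 1 / 4 < cos (6 * (π / 30)) * cos (4 * (π / 30)) := by nlinarith
  nlinarith [mul_le_mul_of_nonneg_right hX1 h6.le]

theorem isThreeAstral : IsThreeAstral (mm n) (fun j => PO (mm n) (RR n j) ((![0, 1, 0] : Fin 3 → ℤ) j))
    (fun j => LO (mm n) (dd n j) ((![1, 1, 0] : Fin 3 → ℤ) j)) (ss n) (tt n) := by
  have hq := q_ge n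
  have hqe := q_even n
  have h24 := c24_pos
  apply generic (mm_pos n) (RR_pos n) (dd_pos n) (RR_inj n) (dd_inj n)
  · intro j
    fin_cases j
    · show 1 ≤ 1 ∧ 2 * 1 < mm n
      unfold mm; omega
    · show 1 ≤ q n ∧ 2 * q n < mm n
      unfold mm; omega
    · show 1 ≤ 7 * q n ∧ 2 * (7 * q n) < mm n
      unfold mm; omega
  · intro j
    fin_cases j
    · show 1 ≤ 4 * q n ∧ 2 * (4 * q n) < mm n
      unfold mm; omega
    · show 1 ≤ 1 ∧ 2 * 1 < mm n
      unfold mm; omega
    · show 1 ≤ 6 * q n ∧ 2 * (6 * q n) < mm n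
      unfold mm; omega
  · intro j
    fin_cases j
    · show cos (phi n) = 1 * cos (((1 : ℕ) : ℝ) * π / mm n)
      rw [ang]; simp
    · show cos (phi n) * cos (π / 30) / cos (4 * (π / 30)) =
        cos (phi n) / cos (4 * (π / 30)) * cos ((q n : ℝ) * π / mm n)
      rw [ang, q_phi]; ring
    · show cos (6 * (π / 30)) =
        cos (π / 30) / cos (4 * (π / 30)) * cos (((7 * q n : ℕ) : ℝ) * π / mm n)
      rw [ang]
      push_cast
      rw [mul_assoc 7, q_phi, div_mul_eq_mul_div, key_identity, mul_div_cancel_left₀ _ h24.ne']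
  · intro j
    fin_cases j
    · show cos (phi n) = cos (phi n) / cos (4 * (π / 30)) * cos (((4 * q n : ℕ) : ℝ) * π / mm n)
      rw [ang]
      push_cast
      rw [mul_assoc 4, q_phi, div_mul_cancel₀ _ h24.ne']
    · show cos (phi n) * cos (π / 30) / cos (4 * (π / 30)) =
        cos (π / 30) / cos (4 * (π / 30)) * cos (((1 : ℕ) : ℝ) * π / mm n)
      rw [ang]
      push_cast
      rw [one_mul]; ring
    · show cos (6 * (π / 30)) = 1 * cos (((6 * q n : ℕ) : ℝ) * π / mm n)
      rw [ang]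
      push_cast
      rw [mul_assoc 6, q_phi, one_mul]
  · intro j
    fin_cases j
    · show (2 : ℤ) ∣ 0 + ((1 : ℕ) : ℤ) - 1
      norm_num
    · show (2 : ℤ) ∣ 1 + (q n : ℤ) - 1
      omega
    · show (2 : ℤ) ∣ 0 + ((7 * q n : ℕ) : ℤ) - 0
      omega
  · intro j
    fin_cases j
    · show (2 : ℤ) ∣ 1 + ((4 * q n : ℕ) : ℤ) - 1
      omega
    · show (2 : ℤ) ∣ 0 + ((1 : ℕ) : ℤ) - 1
      norm_num
    · show (2 : ℤ) ∣ 0 + ((6 * q n : ℕ) : ℤ) - 0
      omega
  · intro j
    fin_cases j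
    · exact extra1 n
    · exact extra2 n
    · exact extra3 n

theorem conn : (levi (⋃ j, PO (mm n) (RR n j) ((![0, 1, 0] : Fin 3 → ℤ) j))
    (⋃ j, LO (mm n) (dd n j) ((![1, 1, 0] : Fin 3 → ℤ) j))).Connected := by
  have hq := q_ge n
  have hqe := q_even n
  have h24 := c24_pos
  refine connected_of (mm_pos n) (RR_pos n) ?_ ?_ rfl (isThreeAstral n)
  · intro j
    fin_cases j
    · show cos (phi n) = 1 * cos (((1 : ℕ) : ℝ) * π / mm n)
      rw [ang]; simp
    · show cos (phi n) * cos (π / 30) / cos (4 * (π / 30)) =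
        cos (phi n) / cos (4 * (π / 30)) * cos ((q n : ℝ) * π / mm n)
      rw [ang, q_phi]; ring
    · show cos (6 * (π / 30)) =
        cos (π / 30) / cos (4 * (π / 30)) * cos (((7 * q n : ℕ) : ℝ) * π / mm n)
      rw [ang]
      push_cast
      rw [mul_assoc 7, q_phi, div_mul_eq_mul_div, key_identity, mul_div_cancel_left₀ _ h24.ne']
  · intro j
    fin_cases j
    · show (2 : ℤ) ∣ 0 + ((1 : ℕ) : ℤ) - 1
      norm_num
    · show (2 : ℤ) ∣ 1 + (q n : ℤ) - 1
      omega
    · show (2 : ℤ) ∣ 0 + ((7 * q n : ℕ) : ℤ) - 0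
      omega

theorem mem_S (x : ℤ) : x ∈ ms (ss n) ↔ x = 1 ∨ x = q n ∨ x = 7 * q n := by
  unfold ms ss
  simp

theorem mem_T (x : ℤ) : x ∈ ms (tt n) ↔ x = 4 * q n ∨ x = 1 ∨ x = 6 * q n := by
  unfold ms tt
  simp

theorem not_trivial : ¬ Trivial (ms (ss n)) (ms (tt n)) := by
  intro h
  unfold Trivial at h
  have h1 : (4 * (q n : ℤ)) ∈ ms (tt n) := (mem_T n _).2 (Or.inl rfl)
  rw [← h, mem_S] at h1
  have := q_ge n
  omega

theorem not_family (S T : Multiset ℤ)
    (hS : ∀ x : ℤ, x ∈ S → x ≠ 10 * q n ∧ x ≠ 12 * q n) (hT : ∀ x : ℤ, x ∈ T → x ≠ 10 * q n ∧ x ≠ 12 * q n)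
    (hsum : ∀ x ∈ S, 15 * (q n : ℤ) - x ∉ S) : ¬ FamilyOrd (mm n) S T := by
  rintro ⟨p, a, r, hp, ha, hr, h | h | h | h⟩
  · obtain ⟨h1, h2, h3⟩ := h
    have ha' : a = 15 * q n := by
      unfold mm at h1
      push_cast at h1
      omega
    have h4 : p ∈ S := by rw [h2]; simp
    have h5 : a - p ∈ S := by rw [h2]; simp
    rw [ha'] at h5
    exact hsum p h4 h5
  · obtain ⟨h1, h2, h3⟩ := h
    have ha' : a = 10 * q n := by
      unfold mm at h1
      push_cast at h1
      omega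
    have h5 : a ∈ T := by rw [h3]; simp
    exact (hT a h5).1 ha'
  · obtain ⟨h1, h2, h3⟩ := h
    have ha' : 2 * a = 10 * q n := by
      unfold mm at h1
      push_cast at h1
      omega
    have h5 : 2 * a ∈ T := by rw [h3]; simp
    exact (hT _ h5).1 ha'
  · obtain ⟨h1, h2, h3⟩ := h
    have ha' : 4 * a = 12 * q n := by
      unfold mm at h1
      push_cast at h1
      omega
    have h5 : 4 * a ∈ T := by rw [h3]; simp
    exact (hT _ h5).2 ha'

theorem not_systematic : ¬ Systematic (mm n) (ms (ss n)) (ms (tt n)) := by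
  have hq := q_ge n
  have hS : ∀ x : ℤ, x ∈ ms (ss n) → x ≠ 10 * q n ∧ x ≠ 12 * q n := by
    intro x hx
    rw [mem_S] at hx
    omega
  have hT : ∀ x : ℤ, x ∈ ms (tt n) → x ≠ 10 * q n ∧ x ≠ 12 * q n := by
    intro x hx
    rw [mem_T] at hx
    omega
  have hS2 : ∀ x ∈ ms (ss n), 15 * (q n : ℤ) - x ∉ ms (ss n) := by
    intro x hx h
    rw [mem_S] at hx h
    omega
  have hT2 : ∀ x ∈ ms (tt n), 15 * (q n : ℤ) - x ∉ ms (tt n) := by
    intro x hx h
    rw [mem_T] at hx h
    omega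
  rintro (h | h)
  · exact not_family n _ _ hS hT hS2 h
  · exact not_family n _ _ hT hS hT2 h

end

theorem mm_injective : Function.Injective mm := by
  intro a b h
  unfold mm q at h
  have h1 : 4 ^ (a + 1) = 4 ^ (b + 1) := Nat.eq_of_mul_eq_mul_left (by norm_num) h
  have := Nat.pow_right_injective (le_refl 2 |>.trans (by norm_num : 2 ≤ 4)) h1
  omega

/-- The negated form of Q1: for infinitely many `m` there is a connected 3-astral 4-configuration
with `m` points in each orbit whose cohort is neither trivial nor in the families 1-4. -/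
theorem result : {m : ℕ | ∃ s t : Fin 3 → ℕ, IsConnectedSporadic m s t}.Infinite := by
  apply Set.infinite_of_injective_forall_mem mm_injective
  intro n
  exact ⟨ss n, tt n, _, _, isThreeAstral n, conn n, not_trivial n, not_systematic n⟩

end Pool.Agent.Results.MP_abecca_co.Sporadic
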